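import Pool.Agent.Helper33.M3.D0

/-!
# Convex bodies of Minkowski asymmetry `n` are simplices
-/

set_option autoImplicit false

open MeasureTheory Set Matrix
open scoped ENNReal

noncomputable section

namespace Helper73.EQ

open W679AM H712MA

variable {n : ℕ}

/-- the algebra of the contact points in the extreme case -/
theorem simplex_of_contact {K : Set (Fin n → ℝ)} (hconv : Convex ℝ K) {b : ℝ} (hb : (n : ℝ) ≤ b)
    {v y : Fin (n + 1) → Fin n → ℝ} {τ : Fin (n + 1) → ℝ}
    (hv : ∀ i, v i ∈ GB.plr K) (hy : ∀ i, y i ∈ K) (hτ : ∀ i, 0 ≤ τ i) (hτ1 : ∑ i, τ i = 1)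
    (hτv : ∑ i, τ i • v i = 0) (hsum : 1 + b = ∑ i, τ i * (1 - y i ⬝ᵥ v i)) :
    K = convexHull ℝ (range y) := by
  -- the weights
  set m : Fin (n + 1) → Fin (n + 1) → ℝ := fun j i => τ j * (1 - y i ⬝ᵥ v j) with hm
  have hm0 : ∀ j i, 0 ≤ m j i := fun j i => mul_nonneg (hτ j) (by
    have := hv j (y i) (hy i)
    linarith)
  have hcol : ∀ i, ∑ j, m j i = 1 := by
    intro i
    have h1 : ∑ j, m j i = ∑ j, τ j - y i ⬝ᵥ (∑ j, τ j • v j) := by
      simp only [hm, mul_sub, mul_one, Finset.sum_sub_distrib, dotProduct_sum, dotProduct_smul,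
        smul_eq_mul]
    rw [h1, hτ1, hτv, dotProduct_zero, sub_zero]
  have hdiag : ∀ i, m i i = 1 := by
    have hle : ∀ i, m i i ≤ 1 := fun i => by
      rw [← hcol i]
      exact Finset.single_le_sum (fun j _ => hm0 j i) (Finset.mem_univ i)
    have hs : ∑ i, m i i = 1 + b := hsum.symm
    have hz : ∑ i, (1 - m i i) ≤ 0 := by
      rw [Finset.sum_sub_distrib, hs]
      simp only [Finset.sum_const, Finset.card_univ, Fintype.card_fin, nsmul_eq_mul, mul_one]
      push_cast
      linarith
    have hz0 : ∑ i, (1 - m i i) = 0 :=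
      le_antisymm hz (Finset.sum_nonneg fun i _ => by have := hle i; linarith)
    intro i
    have := (Finset.sum_eq_zero_iff_of_nonneg fun i _ => by have := hle i; linarith).1 hz0 i
      (Finset.mem_univ i)
    linarith
  have hτpos : ∀ i, 0 < τ i := by
    intro i
    rcases (hτ i).lt_or_eq with h1 | h1
    · exact h1
    · have := hdiag i
      simp only [hm, ← h1, zero_mul] at this
      norm_num at this
  have hoff : ∀ j i, j ≠ i → y i ⬝ᵥ v j = 1 := by
    intro j i hji
    have h1 : m j i = 0 := by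
      have h2 := hcol i
      rw [← Finset.add_sum_erase _ _ (Finset.mem_univ i), hdiag i] at h2
      have h3 : ∑ x ∈ Finset.univ.erase i, m x i = 0 := by linarith
      exact (Finset.sum_eq_zero_iff_of_nonneg fun x _ => hm0 x i).1 h3 j
        (Finset.mem_erase.2 ⟨hji, Finset.mem_univ j⟩)
    rcases mul_eq_zero.1 h1 with h2 | h2
    · exact absurd h2 (hτpos j).ne'
    · linarith
  have hdia : ∀ i, y i ⬝ᵥ v i = 1 - 1 / τ i := by
    intro i
    have h1 := hdiag i
    have h2 := (hτpos i).ne'
    simp only [hm] at h1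
    field_simp
    linarith
  -- a linear combination of `y₀, …, y_{n-1}` orthogonal to all `v_j` is trivial
  have hker : ∀ c : Fin (n + 1) → ℝ, c (Fin.last n) = 0 →
      (∀ j, (∑ i, c i • y i) ⬝ᵥ v j = 0) → ∀ i, c i = 0 := by
    intro c hc3 hc
    have h1 : ∀ j, (∑ i, c i • y i) ⬝ᵥ v j = ∑ i, c i - c j / τ j := by
      intro j
      rw [sum_dotProduct]
      have h2 : ∀ i, (c i • y i) ⬝ᵥ v j = c i - (if i = j then c j / τ j else 0) := by
        intro i
        rw [smul_dotProduct, smul_eq_mul]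
        by_cases hij : i = j
        · subst hij
          rw [hdia, if_pos rfl]
          ring
        · rw [hoff j i (Ne.symm hij), if_neg hij]
          ring
      rw [Finset.sum_congr rfl fun i _ => h2 i, Finset.sum_sub_distrib,
        Finset.sum_ite_eq' Finset.univ j, if_pos (Finset.mem_univ j)]
    have h3 : ∑ i, c i = 0 := by
      have := h1 (Fin.last n)
      rw [hc (Fin.last n), hc3, zero_div, sub_zero] at this
      exact this.symm
    intro j
    have h4 := h1 j
    rw [hc j, h3, zero_sub] at h4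
    have h5 : c j / τ j = 0 := by linarith
    rcases div_eq_zero_iff.1 h5 with h6 | h6
    · exact h6
    · exact absurd h6 (hτpos j).ne'
  -- `y₀, …, y_{n-1}` are a basis
  have hli : LinearIndependent ℝ (fun i : Fin n => y i.castSucc) := by
    rw [Fintype.linearIndependent_iff]
    intro g hg i
    set c : Fin (n + 1) → ℝ := Fin.snoc g 0 with hcdef
    have hc3 : c (Fin.last n) = 0 := Fin.snoc_last (α := fun _ => ℝ) (0 : ℝ) g
    have hcs : ∀ i : Fin n, c i.castSucc = g i := fun i =>
      Fin.snoc_castSucc (α := fun _ => ℝ) (0 : ℝ) g i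
    have hsum0 : ∑ i, c i • y i = 0 := by
      rw [Fin.sum_univ_castSucc, hc3, zero_smul, add_zero, ← hg]
      exact Finset.sum_congr rfl fun i _ => by rw [hcs]
    have := hker c hc3 (fun j => by rw [hsum0, zero_dotProduct]) i.castSucc
    rwa [hcs] at this
  have hspan : Submodule.span ℝ (range fun i : Fin n => y i.castSucc) = ⊤ :=
    hli.span_eq_top_of_card_eq_finrank' (by simp)
  have horth : ∀ w : Fin n → ℝ, (∀ j, w ⬝ᵥ v j = 0) → w = 0 := by
    intro w hw
    have hwm : w ∈ Submodule.span ℝ (range fun i : Fin n => y i.castSucc) := by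
      rw [hspan]; exact Submodule.mem_top
    obtain ⟨g, hg⟩ := (Submodule.mem_span_range_iff_exists_fun ℝ).1 hwm
    set c : Fin (n + 1) → ℝ := Fin.snoc g 0 with hcdef
    have hc3 : c (Fin.last n) = 0 := Fin.snoc_last (α := fun _ => ℝ) (0 : ℝ) g
    have hcs : ∀ i : Fin n, c i.castSucc = g i := fun i =>
      Fin.snoc_castSucc (α := fun _ => ℝ) (0 : ℝ) g i
    have hsum0 : ∑ i, c i • y i = w := by
      rw [Fin.sum_univ_castSucc, hc3, zero_smul, add_zero, ← hg]
      exact Finset.sum_congr rfl fun i _ => by rw [hcs]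
    have := hker c hc3 (fun j => by rw [hsum0, hw j])
    rw [← hsum0]
    exact Finset.sum_eq_zero fun i _ => by rw [this i, zero_smul]
  refine Subset.antisymm ?_ (convexHull_min (by rintro _ ⟨i, rfl⟩; exact hy i) hconv)
  intro z hz
  set l : Fin (n + 1) → ℝ := fun i => τ i * (1 - z ⬝ᵥ v i) with hl
  have hl0 : ∀ i, 0 ≤ l i := fun i => mul_nonneg (hτ i) (by
    have := hv i z hz
    linarith)
  have hl1 : ∑ i, l i = 1 := by
    have h1 : ∑ j, l j = ∑ j, τ j - z ⬝ᵥ (∑ j, τ j • v j) := by
      simp only [hl, mul_sub, mul_one, Finset.sum_sub_distrib, dotProduct_sum, dotProduct_smul,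
        smul_eq_mul]
    rw [h1, hτ1, hτv, dotProduct_zero, sub_zero]
  have hzl : ∑ i, l i • y i = z := by
    have h1 := horth (∑ i, l i • y i - z) (fun j => by
      rw [sub_dotProduct, sum_dotProduct]
      have h2 : ∀ i, (l i • y i) ⬝ᵥ v j = l i - (if i = j then l j / τ j else 0) := by
        intro i
        rw [smul_dotProduct, smul_eq_mul]
        by_cases hij : i = j
        · subst hij
          rw [hdia, if_pos rfl]
          ring
        · rw [hoff j i (Ne.symm hij), if_neg hij]
          ring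
      rw [Finset.sum_congr rfl fun i _ => h2 i, Finset.sum_sub_distrib,
        Finset.sum_ite_eq' Finset.univ j, if_pos (Finset.mem_univ j), hl1]
      have h3 : l j / τ j = 1 - z ⬝ᵥ v j := by
        simp only [hl]
        rw [mul_div_assoc, mul_comm, div_mul_cancel₀ _ (hτpos j).ne']
      rw [h3]
      ring)
    exact sub_eq_zero.1 h1
  rw [← hzl]
  exact (convex_convexHull ℝ _).sum_mem (fun i _ => hl0 i) hl1
    (fun i _ => subset_convexHull ℝ _ ⟨i, rfl⟩)

/-- a convex body of `ℝⁿ` such that no translate of `-K` lies in `b K` with `b < n` is a simplex -/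
theorem simplex_of_asym {K : Set (Fin n → ℝ)} (h : OBody K)
    (hasym : ∀ (b : ℝ) (a : Fin n → ℝ), 0 ≤ b → (∀ x ∈ K, ∃ z ∈ K, -x = b • z + a) →
      (n : ℝ) ≤ b) :
    ∃ y : Fin (n + 1) → Fin n → ℝ, K = convexHull ℝ (range y) := by
  obtain ⟨b, a, v, y, τ, hb0, hba, hv, hy, hτ, hτ1, hτv, hmin, hsum⟩ :=
    Pool.Agent.Helper33.M3.contact h
  exact ⟨y, simplex_of_contact h.conv (hasym b a hb0 hba) hv hy hτ hτ1 hτv hsum⟩

end Helper73.EQ

end
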