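import Pool.Agent.Helper37.EQ.Spec
import Pool.Agent.Helper73.EQ.E5

/-!
# EQ, part SMX: bodies of Minkowski asymmetry `n`
-/

set_option autoImplicit false

noncomputable section

namespace Helper73.EQ.SMX

/-- SMX -/
theorem main : Helper37.EQ.Q_SMX := fun _ _ h hasym =>
  simplex_of_asym (K := _) ⟨h.1, h.2.1, h.2.2⟩ hasym

end Helper73.EQ.SMX
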